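import Mathlib

namespace Pool.Agent.H51.Homog

/-- A latin square whose rows, columns and symbols are indexed by `α`: every symbol occurs exactly
once in each row and exactly once in each column. -/
def IsLatin {α : Type} (L : α → α → α) : Prop :=
  (∀ r, Function.Bijective (L r)) ∧ ∀ c, Function.Bijective fun r => L r c

/-- The number of intercalates containing the cell `(r, c)`.  Such an intercalate is determined by
its other row `p.1` and its other column `p.2`. -/
noncomputable def intercalatesAt {α : Type} (L : α → α → α) (r c : α) : ℕ :=
  {p : α × α | p.1 ≠ r ∧ p.2 ≠ c ∧ L p.1 p.2 = L r c ∧ L p.1 c = L r p.2}.ncard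

/-- `L` is `h`-homogeneous: every cell belongs to exactly `h` intercalates. -/
def IsHomogeneous {α : Type} (h : ℕ) (L : α → α → α) : Prop :=
  ∀ r c, intercalatesAt L r c = h

end Pool.Agent.H51.Homog
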