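import Mathlib
import Pool.Agent.H51.Homog.Defs

open Finset

namespace Pool.Agent.H51.Homog

variable {α : Type} [Fintype α] [DecidableEq α]

/-- the columns as permutations -/
noncomputable def col {L : α → α → α} (hL : IsLatin L) (c : α) : Equiv.Perm α :=
  Equiv.ofBijective _ (hL.2 c)

lemma col_apply {L : α → α → α} (hL : IsLatin L) (c r : α) : col hL c r = L r c := rfl

/-- a family of permutations coming from a latin square -/
def Sharp (σ : α → Equiv.Perm α) : Prop := ∀ r, Function.Bijective fun c => σ c r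

/-- the pair of columns `c, c'` is good in row `r` -/
def gd (σ : α → Equiv.Perm α) (c c' r : α) : Prop := σ c' ((σ c).symm (σ c' r)) = σ c r

lemma gd_iff (σ : α → Equiv.Perm α) (c c' r : α) :
    gd σ c c' r ↔ (σ c).symm (σ c' r) = (σ c').symm (σ c r) := by
  unfold gd
  rw [Equiv.eq_symm_apply]

lemma gd_symm (σ : α → Equiv.Perm α) (c c' r : α) : gd σ c c' r ↔ gd σ c' c r := by
  rw [gd_iff, gd_iff, eq_comm]

lemma gd_self (σ : α → Equiv.Perm α) (c r : α) : gd σ c c r := by
  unfold gd; simp

/-- transport of goodness from a row to another one -/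
lemma transport (σ : α → Equiv.Perm α) {c c' e r r' t : α} (hr' : r' = (σ c).symm (σ c' r))
    (ht : t = (σ c).symm (σ e r)) (h1 : gd σ c e r) (h2 : gd σ c' e r) (h3 : gd σ c e r')
    (h4 : gd σ c' e r') : gd σ c c' t ↔ gd σ c c' r := by
  rw [gd_iff] at h1 h2 h3 h4
  have e1 : σ c r' = σ c' r := by rw [hr']; simp
  have e2 : σ c t = σ e r := by rw [ht]; simp
  rw [e1, ← h2] at h3
  -- `h3 : (σ c).symm (σ e r') = (σ c').symm (σ e r)`
  have e3 : (σ c').symm (σ c t) = (σ c).symm (σ e r') := by rw [e2, h3]
  have e4 : σ e t = σ c r := by rw [ht, h1]; simp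
  constructor
  · intro h
    rw [gd_iff, e3] at h
    have h5 : σ c' t = σ e r' := (σ c).symm.injective h
    have h6 : t = (σ c').symm (σ e r') := by rw [← h5]; simp
    rw [h4] at h6
    have h7 : σ e t = σ c' r' := by rw [h6]; simp
    show σ c' ((σ c).symm (σ c' r)) = σ c r
    rw [← hr', ← h7, e4]
  · intro h
    have h5 : σ c' r' = σ c r := by rw [hr']; exact h
    rw [h5, ← e4, Equiv.symm_apply_apply] at h4
    have h6 : σ c' t = σ e r' := by rw [← h4]; simp
    rw [gd_iff, e3, h6]

open Classical in
/-- number of bad columns -/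
noncomputable def badc (σ : α → Equiv.Perm α) (c r : α) : Finset α :=
  univ.filter fun e => ¬ gd σ c e r

open Classical in
/-- each pair of columns is good in all rows or in no row -/
lemma dichotomy {σ : α → Equiv.Perm α} (hσ : Sharp σ) {d : ℕ} (hd : 8 * d ≤ Fintype.card α)
    (hbad : ∀ c r, (badc σ c r).card ≤ d) (c c' : α) :
    (∀ r, gd σ c c' r) ∨ ∀ r, ¬ gd σ c c' r := by
  -- from a row with a given status we obtain many rows with the same status
  have key : ∀ r, Fintype.card α ≤ (univ.filter fun t => gd σ c c' t ↔ gd σ c c' r).card +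
      ((badc σ c r ∪ badc σ c ((σ c).symm (σ c' r))).card +
        (badc σ c' r ∪ badc σ c' ((σ c).symm (σ c' r))).card) := by
    intro r
    set r' := (σ c).symm (σ c' r) with hr'
    set E : Finset α := univ.filter fun e => gd σ c e r ∧ gd σ c' e r ∧ gd σ c e r' ∧ gd σ c' e r'
      with hE
    have h1 : E.card ≤ (univ.filter fun t => gd σ c c' t ↔ gd σ c c' r).card := by
      refine card_le_card_of_injOn (fun e => (σ c).symm (σ e r)) ?_ ?_
      · intro e he
        simp only [hE, coe_filter, mem_univ, true_and, Set.mem_ofPred_eq] at he ⊢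
        exact transport σ hr' rfl he.1 he.2.1 he.2.2.1 he.2.2.2
      · intro e _ e' _ hee
        exact (hσ r).1 ((σ c).symm.injective hee)
    have h2 : (univ : Finset α) ⊆ E ∪ ((badc σ c r ∪ badc σ c r') ∪ (badc σ c' r ∪ badc σ c' r')) := by
      intro e _
      simp only [hE, badc, mem_union, mem_filter, mem_univ, true_and]
      tauto
    have h3 := card_le_card h2
    have h4 := card_union_le E ((badc σ c r ∪ badc σ c r') ∪ (badc σ c' r ∪ badc σ c' r'))
    have h5 := card_union_le (badc σ c r ∪ badc σ c r') (badc σ c' r ∪ badc σ c' r')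
    rw [card_univ] at h3
    omega
  by_contra hcon
  push Not at hcon
  obtain ⟨⟨q, hq⟩, ⟨r, hr⟩⟩ := hcon
  have h1 := key q
  have h2 := key r
  have h3 : (univ.filter fun t => gd σ c c' t ↔ gd σ c c' q).card +
      (univ.filter fun t => gd σ c c' t ↔ gd σ c c' r).card ≤ Fintype.card α := by
    rw [← card_univ, ← card_union_of_disjoint]
    · exact card_le_card (subset_univ _)
    · rw [disjoint_left]
      intro t ht ht'
      simp only [mem_filter, mem_univ, true_and] at ht ht'
      tauto
  -- sizes of the unions in the good row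
  have h4 := card_union_le (badc σ c r) (badc σ c ((σ c).symm (σ c' r)))
  have h5 := card_union_le (badc σ c' r) (badc σ c' ((σ c).symm (σ c' r)))
  have h6 := hbad c r
  have h7 := hbad c ((σ c).symm (σ c' r))
  have h8 := hbad c' r
  have h9 := hbad c' ((σ c).symm (σ c' r))
  -- sizes of the unions in the bad row
  have h10 := card_union_add_card_inter (badc σ c q) (badc σ c ((σ c).symm (σ c' q)))
  have h11 := card_union_add_card_inter (badc σ c' q) (badc σ c' ((σ c).symm (σ c' q)))
  have h12 := hbad c q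
  have h13 := hbad c ((σ c).symm (σ c' q))
  have h14 := hbad c' q
  have h15 := hbad c' ((σ c).symm (σ c' q))
  have hq' : ¬ gd σ c c' ((σ c).symm (σ c' q)) := by
    intro h
    apply hq
    unfold gd at h
    rw [Equiv.apply_symm_apply] at h
    have h16 := (σ c').injective h
    rw [Equiv.symm_apply_eq] at h16
    exact h16
  have h17 : 0 < (badc σ c q ∩ badc σ c ((σ c).symm (σ c' q))).card := by
    rw [card_pos]
    refine ⟨c', ?_⟩
    simp only [badc, mem_inter, mem_filter, mem_univ, true_and]
    exact ⟨hq, hq'⟩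
  have h18 : 0 < (badc σ c' q ∩ badc σ c' ((σ c).symm (σ c' q))).card := by
    rw [card_pos]
    refine ⟨c, ?_⟩
    simp only [badc, mem_inter, mem_filter, mem_univ, true_and]
    exact ⟨fun h => hq ((gd_symm _ _ _ _).1 h), fun h => hq' ((gd_symm _ _ _ _).1 h)⟩
  omega

/-- good in all rows -/
def Gd (σ : α → Equiv.Perm α) (c c' : α) : Prop := ∀ r, gd σ c c' r

lemma Gd.symm {σ : α → Equiv.Perm α} {c c' : α} (h : Gd σ c c') : Gd σ c' c :=
  fun r => (gd_symm σ c c' r).1 (h r)

lemma Gd_iff (σ : α → Equiv.Perm α) (c c' : α) :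
    Gd σ c c' ↔ σ c' * (σ c)⁻¹ * σ c' = σ c := by
  constructor
  · intro h
    ext r
    exact h r
  · intro h r
    have := congrArg (fun f : Equiv.Perm α => f r) h
    exact this

open Classical in
noncomputable def GG (σ : α → Equiv.Perm α) (c : α) : Finset α := univ.filter fun e => Gd σ c e

open Classical in
lemma mem_GG {σ : α → Equiv.Perm α} {c e : α} : e ∈ GG σ c ↔ Gd σ c e := by simp [GG]

open Classical in
lemma GG_compl {σ : α → Equiv.Perm α} (hσ : Sharp σ) {d : ℕ} (hd : 8 * d ≤ Fintype.card α)
    (hbad : ∀ c r, (badc σ c r).card ≤ d) (c r : α) : (GG σ c)ᶜ = badc σ c r := by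
  ext e
  rw [mem_compl, mem_GG]
  simp only [badc, mem_filter, mem_univ, true_and]
  rcases dichotomy hσ hd hbad c e with h | h
  · exact ⟨fun h' => absurd h h', fun h' => absurd (h r) h'⟩
  · exact ⟨fun _ => h r, fun _ h' => h r (h' r)⟩

open Classical in
/-- two columns that are good with `c₀` are good with each other, provided some sets of columns are
large -/
lemma clique_of {σ : α → Equiv.Perm α} (hσ : Sharp σ) {d : ℕ} (hd : 4 * d < Fintype.card α)
    (hG : ∀ c, (GG σ c)ᶜ.card ≤ d) {c₀ a b : α} (ha : a ∈ GG σ c₀) (hb : b ∈ GG σ c₀)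
    (hbig : ∀ e f, Fintype.card α < 2 * (GG σ c₀ ∩ GG σ e ∩ (GG σ f ∩ GG σ b)).card) :
    Gd σ a b := by
    set A : α → Equiv.Perm α := fun c => σ c * (σ c₀)⁻¹ with hA
    have hA2 : ∀ c, c ∈ GG σ c₀ → A c * A c = 1 := by
      intro c hc
      have h1 := (Gd_iff σ c₀ c).1 (mem_GG.1 hc)
      simp only [hA]
      calc σ c * (σ c₀)⁻¹ * (σ c * (σ c₀)⁻¹) = (σ c * (σ c₀)⁻¹ * σ c) * (σ c₀)⁻¹ := by group
        _ = 1 := by rw [h1]; group
    have hAinv : ∀ c, c ∈ GG σ c₀ → (A c)⁻¹ = A c := fun c hc => by
      rw [inv_eq_iff_mul_eq_one]; exact hA2 c hc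
    have hcomm : ∀ x y, x ∈ GG σ c₀ → y ∈ GG σ c₀ → (Gd σ x y ↔ A x * A y = A y * A x) := by
      intro x y hx hy
      rw [Gd_iff]
      have e1 : σ y * (σ x)⁻¹ * σ y = A y * (A x)⁻¹ * A y * σ c₀ := by simp only [hA]; group
      have e2 : σ x = A x * σ c₀ := by simp only [hA]; group
      rw [e1, e2, mul_left_inj, hAinv x hx]
      constructor
      · intro h
        calc A x * A y = A y * A x * A y * A y := by rw [h]
          _ = A y * A x * (A y * A y) := by group
          _ = A y * A x := by rw [hA2 y hy, mul_one]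
      · intro h
        calc A y * A x * A y = A x * A y * A y := by rw [h]
          _ = A x * (A y * A y) := by group
          _ = A x := by rw [hA2 y hy, mul_one]
    -- choose `x`
    set x : α := c₀
    set f : α → α := fun e => (Equiv.ofBijective _ (hσ ((σ c₀).symm x))).symm (A e (A b x)) with hf
    have hfspec : ∀ e, A (f e) x = A e (A b x) := by
      intro e
      have := (Equiv.ofBijective _ (hσ ((σ c₀).symm x))).apply_symm_apply (A e (A b x))
      exact this
    have hfinj : Function.Injective f := by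
      intro e e' h
      have h1 : A e (A b x) = A e' (A b x) := (Equiv.ofBijective _ (hσ ((σ c₀).symm x))).symm.injective h
      exact (hσ ((σ c₀).symm (A b x))).1 h1
    -- choose `e`
    obtain ⟨e, he1, he2, he3, he4⟩ : ∃ e, e ∈ GG σ c₀ ∧ e ∈ GG σ a ∧ f e ∈ GG σ c₀ ∧
        f e ∈ GG σ a := by
      by_contra hcon
      push Not at hcon
      have h1 : (univ : Finset α) ⊆ ((GG σ c₀)ᶜ ∪ (GG σ a)ᶜ) ∪
          ((GG σ c₀)ᶜ.preimage f hfinj.injOn ∪ (GG σ a)ᶜ.preimage f hfinj.injOn) := by
        intro e _
        simp only [mem_union, mem_compl, mem_preimage]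
        by_cases g1 : e ∈ GG σ c₀
        · by_cases g2 : e ∈ GG σ a
          · by_cases g3 : f e ∈ GG σ c₀
            · exact Or.inr (Or.inr (hcon e g1 g2 g3))
            · exact Or.inr (Or.inl g3)
          · exact Or.inl (Or.inr g2)
        · exact Or.inl (Or.inl g1)
      have h2 := card_le_card h1
      have h3 := card_union_le ((GG σ c₀)ᶜ ∪ (GG σ a)ᶜ)
        ((GG σ c₀)ᶜ.preimage f hfinj.injOn ∪ (GG σ a)ᶜ.preimage f hfinj.injOn)
      have h4 := card_union_le (GG σ c₀)ᶜ (GG σ a)ᶜ
      have h5 := card_union_le ((GG σ c₀)ᶜ.preimage f hfinj.injOn)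
        ((GG σ a)ᶜ.preimage f hfinj.injOn)
      have h6 : ∀ s : Finset α, (s.preimage f hfinj.injOn).card ≤ s.card := by
        intro s
        refine card_le_card_of_injOn f ?_ hfinj.injOn
        intro y hy
        simpa using hy
      have h7 := h6 (GG σ c₀)ᶜ
      have h8 := h6 (GG σ a)ᶜ
      have h9 := hG c₀
      have h10 := hG a
      rw [card_univ] at h2
      omega
    set γ : Equiv.Perm α := A (f e) * A e * A b with hγ
    have hγx : γ x = x := by
      show A (f e) (A e (A b x)) = x
      rw [← hfspec]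
      have := congrArg (fun g : Equiv.Perm α => g x) (hA2 _ he3)
      exact this
    set W : Finset α := GG σ c₀ ∩ GG σ e ∩ (GG σ (f e) ∩ GG σ b) with hW
    have hWcard : Fintype.card α < 2 * W.card := hbig e (f e)
    have hWc : ∀ w ∈ W, A w * γ = γ * A w := by
      intro w hw
      simp only [hW, mem_inter] at hw
      obtain ⟨⟨w0, w1⟩, w2, w3⟩ := hw
      have k1 := (hcomm e w he1 w0).1 (mem_GG.1 w1)
      have k2 := (hcomm (f e) w he3 w0).1 (mem_GG.1 w2)
      have k3 := (hcomm b w hb w0).1 (mem_GG.1 w3)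
      rw [hγ]
      calc A w * (A (f e) * A e * A b) = (A w * A (f e)) * A e * A b := by group
        _ = A (f e) * (A w * A e) * A b := by rw [← k2]; group
        _ = A (f e) * A e * (A w * A b) := by rw [← k1]; group
        _ = A (f e) * A e * A b * A w := by rw [← k3]; group
    have hγ1 : γ = 1 := by
      ext y
      -- two elements of `W` linking `x` and `y`
      have hinj : ∀ z, Set.InjOn (fun w => A w z) (W : Set α) := by
        intro z w _ w' _ h
        exact (hσ ((σ c₀).symm z)).1 h
      have hint : ((W.image fun w => A w x) ∩ (W.image fun w => A w y)).Nonempty := by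
        rw [← card_pos]
        have h1 := card_union_add_card_inter (W.image fun w => A w x) (W.image fun w => A w y)
        rw [card_image_of_injOn (hinj x), card_image_of_injOn (hinj y)] at h1
        have h2 : ((W.image fun w => A w x) ∪ (W.image fun w => A w y)).card ≤ Fintype.card α :=
          card_le_univ _
        omega
      obtain ⟨z, hz⟩ := hint
      rw [mem_inter, mem_image, mem_image] at hz
      obtain ⟨⟨w, hw, hwz⟩, w', hw', hwz'⟩ := hz
      have hw0 : w' ∈ GG σ c₀ := by
        simp only [hW, mem_inter] at hw'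
        exact hw'.1.1
      have e1 : y = A w' (A w x) := by
        rw [hwz, ← hwz']
        have := congrArg (fun g : Equiv.Perm α => g y) (hA2 w' hw0)
        exact this.symm
      have e2 : γ y = A w' (A w (γ x)) := by
        rw [e1]
        have g1 := congrArg (fun g : Equiv.Perm α => g (A w x)) (hWc w' hw')
        have g2 := congrArg (fun g : Equiv.Perm α => g x) (hWc w hw)
        simp only [Equiv.Perm.mul_apply] at g1 g2
        rw [← g1, ← g2]
      rw [e2, hγx, ← e1]
      rfl
    -- hence `A b = A e * A (f e)`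
    have hAb : A b = A e * A (f e) := by
      have h1 : A (f e) * A e * A b = 1 := by rw [← hγ]; exact hγ1
      have h2 : A b = (A (f e) * A e)⁻¹ := (inv_eq_of_mul_eq_one_right h1).symm
      rw [h2, mul_inv_rev, hAinv e he1, hAinv (f e) he3]
    rw [hcomm a b ha hb, hAb]
    have k1 := (hcomm a e ha he1).1 (mem_GG.1 he2)
    have k2 := (hcomm a (f e) ha he3).1 (mem_GG.1 he4)
    calc A a * (A e * A (f e)) = (A a * A e) * A (f e) := by group
      _ = A e * (A a * A (f e)) := by rw [k1]; group
      _ = A e * A (f e) * A a := by rw [k2]; group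

open Classical in
theorem all_good {σ : α → Equiv.Perm α} (hσ : Sharp σ) {d : ℕ} (hd : 8 * d < Fintype.card α)
    (hbad : ∀ c r, (badc σ c r).card ≤ d) (c c' : α) : Gd σ c c' := by
  have hG : ∀ c, (GG σ c)ᶜ.card ≤ d := by
    intro c
    rw [GG_compl hσ hd.le hbad c c]
    exact hbad c c
  -- the members of `GG σ c₀` are pairwise good
  have clique : ∀ c₀ a b, a ∈ GG σ c₀ → b ∈ GG σ c₀ → Gd σ a b := by
    intro c₀ a b ha hb
    refine clique_of hσ (by omega) hG ha hb fun e f => ?_
    set W : Finset α := GG σ c₀ ∩ GG σ e ∩ (GG σ f ∩ GG σ b) with hW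
    have h1 : Wᶜ ⊆ ((GG σ c₀)ᶜ ∪ (GG σ e)ᶜ) ∪ ((GG σ f)ᶜ ∪ (GG σ b)ᶜ) := by
      intro y hy
      simp only [hW, mem_compl, mem_inter, mem_union] at hy ⊢
      tauto
    have h2 := card_le_card h1
    have h3 := card_union_le ((GG σ c₀)ᶜ ∪ (GG σ e)ᶜ) ((GG σ f)ᶜ ∪ (GG σ b)ᶜ)
    have h4 := card_union_le (GG σ c₀)ᶜ (GG σ e)ᶜ
    have h5 := card_union_le (GG σ f)ᶜ (GG σ b)ᶜ
    have h6 := hG c₀
    have h7 := hG e
    have h8 := hG f
    have h9 := hG b
    have h10 := card_compl W
    have h11 : W.card ≤ Fintype.card α := card_le_univ W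
    omega
  -- two closed neighbourhoods meet
  have hint : (GG σ c ∩ GG σ c').Nonempty := by
    rw [← card_pos]
    have h1 := card_union_add_card_inter (GG σ c) (GG σ c')
    have h2 : (GG σ c ∪ GG σ c').card ≤ Fintype.card α := card_le_univ _
    have h3 := hG c
    have h4 := hG c'
    rw [card_compl] at h3 h4
    omega
  obtain ⟨w, hw⟩ := hint
  rw [mem_inter] at hw
  exact clique w c c' (mem_GG.2 (mem_GG.1 hw.1).symm) (mem_GG.2 (mem_GG.1 hw.2).symm)

/-! ### Translation to latin squares -/

lemma sharp_col {L : α → α → α} (hL : IsLatin L) : Sharp (col hL) := fun r => hL.1 r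

open Classical in
lemma intercalatesAt_eq {L : α → α → α} (hL : IsLatin L) (r c : α) :
    intercalatesAt L r c + 1 + (badc (col hL) c r).card = Fintype.card α := by
  set G : Finset α := univ.filter fun e => e ≠ c ∧ gd (col hL) c e r with hG
  have h1 : intercalatesAt L r c = G.card := by
    unfold intercalatesAt
    rw [← Set.ncard_coe_finset]
    refine Set.ncard_congr (fun p _ => p.2) ?_ ?_ ?_
    · rintro ⟨r', c'⟩ ⟨hr, hc, h2, h3⟩
      simp only [hG, coe_filter, mem_univ, true_and, Set.mem_ofPred_eq]
      refine ⟨hc, ?_⟩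
      have h4 : (col hL c).symm (col hL c' r) = r' := by
        rw [Equiv.symm_apply_eq]
        exact h3.symm
      show col hL c' ((col hL c).symm (col hL c' r)) = col hL c r
      rw [h4]
      exact h2
    · rintro ⟨r', c'⟩ ⟨r'', c''⟩ ⟨_, _, _, h3⟩ ⟨_, _, _, h3'⟩ (h : c' = c'')
      subst h
      have h5 : L r' c = L r'' c := h3.trans h3'.symm
      rw [(hL.2 c).1 h5]
    · intro e he
      simp only [hG, coe_filter, mem_univ, true_and, Set.mem_ofPred_eq] at he
      obtain ⟨he, hg⟩ := he
      have h4 : col hL c ((col hL c).symm (col hL e r)) = col hL e r := by simp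
      refine ⟨((col hL c).symm (col hL e r), e), ⟨?_, he, hg, h4⟩, rfl⟩
      intro h5
      have h5' : (col hL c).symm (col hL e r) = r := h5
      rw [h5'] at h4
      exact he ((hL.1 r).1 h4.symm)
  have h2 : insert c G = univ.filter fun e => gd (col hL) c e r := by
    ext e
    simp only [hG, mem_insert, mem_filter, mem_univ, true_and]
    constructor
    · rintro (rfl | h)
      · exact gd_self _ _ _
      · exact h.2
    · intro h
      by_cases he : e = c
      · exact Or.inl he
      · exact Or.inr ⟨he, h⟩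
  have h3 : c ∉ G := by simp [hG]
  have h4 := card_insert_of_notMem h3
  rw [h2] at h4
  have h5 := card_filter_add_card_filter_not (s := (univ : Finset α)) (fun e => gd (col hL) c e r)
  rw [card_univ] at h5
  have h6 : (badc (col hL) c r).card = (univ.filter fun e => ¬ gd (col hL) c e r).card := rfl
  rw [h1, h6]
  omega

open Classical in
/-- If every cell lies in at least `n - k` intercalates and `n > 8 (k - 1)`, then every cell lies
in `n - 1` intercalates. -/
theorem many_intercalates {L : α → α → α} (hL : IsLatin L) {k : ℕ}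
    (hk : 8 * (k - 1) < Fintype.card α) (h : ∀ r c, Fintype.card α ≤ intercalatesAt L r c + k)
    (r c : α) : intercalatesAt L r c + 1 = Fintype.card α := by
  have hbad : ∀ c r, (badc (col hL) c r).card ≤ k - 1 := by
    intro c r
    have h1 := intercalatesAt_eq hL r c
    have h2 := h r c
    omega
  have h1 := all_good (sharp_col hL) hk hbad
  have h2 := intercalatesAt_eq hL r c
  have h3 : badc (col hL) c r = ∅ := by
    rw [eq_empty_iff_forall_notMem]
    intro e he
    simp only [badc, mem_filter, mem_univ, true_and] at he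
    exact he (h1 c e r)
  rw [h3] at h2
  simpa using h2

/-- If all cells lie in `n - 1` intercalates then `n` is a power of two. -/
theorem card_pow_two {L : α → α → α} (hL : IsLatin L)
    (h : ∀ r c, intercalatesAt L r c + 1 = Fintype.card α) [Nonempty α] :
    ∃ m, Fintype.card α = 2 ^ m := by
  classical
  have hgood : ∀ c c', Gd (col hL) c c' := by
    intro c c' r
    have h1 := intercalatesAt_eq hL r c
    have h2 := h r c
    have h3 : (badc (col hL) c r).card = 0 := by omega
    rw [card_eq_zero, eq_empty_iff_forall_notMem] at h3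
    have h4 := h3 c'
    simpa [badc] using h4
  obtain ⟨c₀⟩ := ‹Nonempty α›
  set σ := col hL with hσ
  set A : α → Equiv.Perm α := fun c => σ c * (σ c₀)⁻¹ with hA
  have hA2 : ∀ c, A c * A c = 1 := by
    intro c
    have h1 := (Gd_iff σ c₀ c).1 (hgood _ _)
    simp only [hA]
    calc σ c * (σ c₀)⁻¹ * (σ c * (σ c₀)⁻¹) = (σ c * (σ c₀)⁻¹ * σ c) * (σ c₀)⁻¹ := by group
      _ = 1 := by rw [h1]; group
  have hAinv : ∀ c, (A c)⁻¹ = A c := fun c => by
    rw [inv_eq_iff_mul_eq_one]; exact hA2 c
  have hcomm : ∀ x y, A x * A y = A y * A x := by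
    intro x y
    have h1 := (Gd_iff σ x y).1 (hgood _ _)
    have e1 : σ y * (σ x)⁻¹ * σ y = A y * (A x)⁻¹ * A y * σ c₀ := by simp only [hA]; group
    have e2 : σ x = A x * σ c₀ := by simp only [hA]; group
    rw [e1, e2, mul_left_inj, hAinv x] at h1
    calc A x * A y = A y * A x * A y * A y := by rw [h1]
      _ = A y * A x * (A y * A y) := by group
      _ = A y * A x := by rw [hA2 y, mul_one]
  set H : Subgroup (Equiv.Perm α) := Subgroup.closure (Set.range A) with hH
  have hHcomm : ∀ x ∈ H, ∀ y ∈ H, x * y = y * x := by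
    intro x hx y hy
    have h1 : ∀ z ∈ Set.range A, ∀ w ∈ Set.range A, z * w = w * z := by
      rintro _ ⟨a, rfl⟩ _ ⟨b, rfl⟩
      exact hcomm a b
    letI := Subgroup.closureCommGroupOfComm h1
    have := mul_comm (⟨x, hx⟩ : H) ⟨y, hy⟩
    exact congrArg Subtype.val this
  have hHsq : ∀ x ∈ H, x * x = 1 := by
    intro x hx
    induction hx using Subgroup.closure_induction with
    | mem x hx =>
      obtain ⟨a, rfl⟩ := hx
      exact hA2 a
    | one => simp
    | mul x y hx hy ihx ihy =>
      calc x * y * (x * y) = x * (y * x) * y := by group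
        _ = x * (x * y) * y := by rw [hHcomm y hy x hx]
        _ = (x * x) * (y * y) := by group
        _ = 1 := by rw [ihx, ihy, mul_one]
    | inv x hx ihx =>
      rw [← mul_inv_rev, ihx, inv_one]
  have hp : IsPGroup 2 H := by
    rintro ⟨x, hx⟩
    refine ⟨1, ?_⟩
    rw [pow_one, pow_two]
    exact Subtype.ext (hHsq x hx)
  have : Fact (Nat.Prime 2) := ⟨Nat.prime_two⟩
  obtain ⟨m, hm⟩ := IsPGroup.iff_card.1 hp
  -- `H` acts transitively
  have htrans : MulAction.IsPretransitive H α := by
    constructor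
    intro x y
    -- a column taking `x` to `y`
    obtain ⟨c, hc⟩ := (hL.1 ((σ c₀).symm x)).2 y
    refine ⟨⟨A c, Subgroup.subset_closure ⟨c, rfl⟩⟩, ?_⟩
    exact hc
  have hdvd : Nat.card α ∣ Nat.card H := by
    have h1 := MulAction.index_stabilizer_of_transitive H c₀
    rw [← h1]
    exact Subgroup.index_dvd_card _
  rw [hm, Nat.card_eq_fintype_card] at hdvd
  obtain ⟨i, _, hi⟩ := (Nat.dvd_prime_pow Nat.prime_two).1 hdvd
  exact ⟨i, hi⟩

end Pool.Agent.H51.Homog
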