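import Mathlib
import Pool.Agent.H51.Homog.Bound

open Finset

namespace Pool.Agent.H51.Homog

/-- A transitive set of pairwise commuting involutions lives on a set whose size is a power of
two. -/
theorem pow_two_of_transitive {X ι : Type} [Finite X] [Nonempty X] (A : ι → Equiv.Perm X)
    (hA2 : ∀ c, A c * A c = 1) (hcomm : ∀ c c', A c * A c' = A c' * A c)
    (htr : ∀ x y, ∃ c, A c x = y) : ∃ j, Nat.card X = 2 ^ j := by
  classical
  set H : Subgroup (Equiv.Perm X) := Subgroup.closure (Set.range A) with hH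
  have hHcomm : ∀ x ∈ H, ∀ y ∈ H, x * y = y * x := by
    intro x hx y hy
    have h1 : ∀ z ∈ Set.range A, ∀ w ∈ Set.range A, z * w = w * z := by
      rintro _ ⟨a, rfl⟩ _ ⟨b, rfl⟩
      exact hcomm a b
    have h2 := Subgroup.isMulCommutative_closure h1
    have := h2.is_comm.comm (⟨x, hx⟩ : H) ⟨y, hy⟩
    exact congrArg Subtype.val this
  have hHsq : ∀ x ∈ H, x * x = 1 := by
    intro x hx
    induction hx using Subgroup.closure_induction with
    | mem x hx =>
      obtain ⟨a, rfl⟩ := hx
      exact hA2 a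
    | one => simp
    | mul x y hx hy ihx ihy =>
      calc x * y * (x * y) = x * (y * x) * y := by group
        _ = x * (x * y) * y := by rw [hHcomm y hy x hx]
        _ = (x * x) * (y * y) := by group
        _ = 1 := by rw [ihx, ihy, mul_one]
    | inv x hx ihx =>
      rw [← mul_inv_rev, ihx, inv_one]
  have hp : IsPGroup 2 H := by
    rintro ⟨x, hx⟩
    refine ⟨1, ?_⟩
    rw [pow_one, pow_two]
    exact Subtype.ext (hHsq x hx)
  have : Fact (Nat.Prime 2) := ⟨Nat.prime_two⟩
  obtain ⟨m, hm⟩ := IsPGroup.iff_card.1 hp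
  have htrans : MulAction.IsPretransitive H X := by
    constructor
    intro x y
    obtain ⟨c, hc⟩ := htr x y
    exact ⟨⟨A c, Subgroup.subset_closure ⟨c, rfl⟩⟩, hc⟩
  obtain ⟨x₀⟩ := ‹Nonempty X›
  have hdvd : Nat.card X ∣ Nat.card H := by
    have h1 := MulAction.index_stabilizer_of_transitive H x₀
    rw [← h1]
    exact Subgroup.index_dvd_card _
  rw [hm] at hdvd
  obtain ⟨i, _, hi⟩ := (Nat.dvd_prime_pow Nat.prime_two).1 hdvd
  exact ⟨i, hi⟩

variable {α : Type}

/-- good pairs of columns, rows, symbols -/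
def cg (L : α → α → α) (c c' : α) : Prop := ∀ r r', L r c = L r' c' → L r c' = L r' c

def rg (L : α → α → α) (r r' : α) : Prop := ∀ c c', L r c = L r' c' → L r c' = L r' c

def sg (L : α → α → α) (s s' : α) : Prop :=
  ∀ r c r' c', L r c = s → L r c' = s' → L r' c = s' → L r' c' = s

/-- transposed square -/
def tr (L : α → α → α) : α → α → α := fun c r => L r c

lemma tr_latin {L : α → α → α} (hL : IsLatin L) : IsLatin (tr L) := ⟨hL.2, hL.1⟩

lemma tr_intercalates (L : α → α → α) (r c : α) :
    intercalatesAt (tr L) c r = intercalatesAt L r c := by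
  unfold intercalatesAt
  refine Set.ncard_congr (fun p _ => (p.2, p.1)) ?_ ?_ ?_
  · rintro ⟨c', r'⟩ ⟨h1, h2, h3, h4⟩
    exact ⟨h2, h1, h3, h4.symm⟩
  · rintro ⟨c', r'⟩ ⟨c'', r''⟩ _ _ h
    simp only [Prod.mk.injEq] at h
    rw [h.1, h.2]
  · rintro ⟨r', c'⟩ ⟨h1, h2, h3, h4⟩
    exact ⟨(c', r'), ⟨h2, h1, h3, h4.symm⟩, rfl⟩

/-- parastrophe exchanging columns and symbols -/
noncomputable def ps {L : α → α → α} (hL : IsLatin L) : α → α → α :=
  fun r s => (Equiv.ofBijective (L r) (hL.1 r)).symm s

lemma ps_spec {L : α → α → α} (hL : IsLatin L) (r s : α) : L r (ps hL r s) = s :=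
  (Equiv.ofBijective (L r) (hL.1 r)).apply_symm_apply s

lemma ps_iff {L : α → α → α} (hL : IsLatin L) {r s c : α} : ps hL r s = c ↔ L r c = s := by
  constructor
  · rintro rfl
    exact ps_spec hL r s
  · intro h
    apply (hL.1 r).1
    rw [ps_spec hL, h]

lemma ps_latin [Finite α] {L : α → α → α} (hL : IsLatin L) : IsLatin (ps hL) := by
  constructor
  · intro r
    exact (Equiv.ofBijective (L r) (hL.1 r)).symm.bijective
  · intro s
    rw [← Finite.injective_iff_bijective]
    intro r r' h
    have h1 := ps_spec hL r s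
    have h2 := ps_spec hL r' s
    have h3 : ps hL r s = ps hL r' s := h
    rw [h3] at h1
    exact (hL.2 _).1 (h1.trans h2.symm)

lemma ps_intercalates {L : α → α → α} (hL : IsLatin L) (r c : α) :
    intercalatesAt (ps hL) r (L r c) = intercalatesAt L r c := by
  unfold intercalatesAt
  symm
  refine Set.ncard_congr (fun p _ => (p.1, L r p.2)) ?_ ?_ ?_
  · rintro ⟨r', c'⟩ ⟨h1, h2, h3, h4⟩
    simp only at h1 h2 h3 h4
    refine ⟨h1, fun h => h2 ((hL.1 r).1 h), ?_, ?_⟩
    · show ps hL r' (L r c') = ps hL r (L r c)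
      rw [ps_iff, h4.symm]
      congr 1
      exact ps_iff hL |>.2 rfl
    · show ps hL r' (L r c) = ps hL r (L r c')
      rw [ps_iff, (ps_iff hL).2 (rfl : L r c' = L r c')]
      exact h3
  · rintro ⟨r', c'⟩ ⟨r'', c''⟩ _ _ h
    simp only [Prod.mk.injEq] at h
    rw [h.1, (hL.1 r).1 h.2]
  · rintro ⟨r', s'⟩ ⟨h1, h2, h3, h4⟩
    simp only at h1 h2 h3 h4
    have e1 : ps hL r (L r c) = c := (ps_iff hL).2 rfl
    rw [e1, ps_iff] at h3
    rw [ps_iff] at h4
    refine ⟨(r', ps hL r s'), ⟨h1, ?_, h4, ?_⟩, ?_⟩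
    · intro h
      apply h2
      show s' = L r c
      rw [← ps_spec hL r s']
      rw [show ps hL r s' = c from h]
    · show L r' c = L r (ps hL r s')
      rw [ps_spec hL, h3]
    · show (r', L r (ps hL r s')) = (r', s')
      rw [ps_spec hL]

variable [Fintype α] [DecidableEq α]

lemma Gd_iff_cg {L : α → α → α} (hL : IsLatin L) (c c' : α) : Gd (col hL) c c' ↔ cg L c c' := by
  constructor
  · intro h r r' hr
    -- use the goodness at the row `r'`
    have h1 := h r'
    unfold gd at h1
    -- the row with symbol `L r' c'` in column `c` is `r`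
    have h2 : (col hL c).symm (col hL c' r') = r := by
      rw [Equiv.symm_apply_eq]
      exact hr.symm
    rw [h2] at h1
    exact h1
  · intro h r
    set r' := (col hL c).symm (col hL c' r) with hr'
    have h1 : L r' c = L r c' := (col hL c).apply_symm_apply _
    exact h r' r h1

lemma cg_symm {L : α → α → α} {c c' : α} (h : cg L c c') : cg L c' c :=
  fun r r' hr => (h r' r hr.symm).symm

/-- column dichotomy -/
lemma col_dich {L : α → α → α} (hL : IsLatin L) {d : ℕ} (hd : 8 * d ≤ Fintype.card α)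
    (hh : ∀ r c, intercalatesAt L r c + 1 + d = Fintype.card α) {r r' c c' : α}
    (h : L r c' = L r' c) : L r' c' = L r c ↔ cg L c c' := by
  have hbad : ∀ c r, (badc (col hL) c r).card ≤ d := by
    intro c r
    have h1 := intercalatesAt_eq hL r c
    have h2 := hh r c
    omega
  have e1 : (col hL c).symm (col hL c' r) = r' := by
    rw [Equiv.symm_apply_eq]
    exact h
  have e2 : gd (col hL) c c' r ↔ L r' c' = L r c := by
    unfold gd
    rw [e1]
    rfl
  rw [← e2, ← Gd_iff_cg hL]
  rcases dichotomy (sharp_col hL) hd hbad c c' with h1 | h1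
  · exact ⟨fun _ => h1, fun _ => h1 r⟩
  · exact ⟨fun h2 => absurd h2 (h1 r), fun h2 => absurd (h2 r) (h1 r)⟩

lemma row_dich {L : α → α → α} (hL : IsLatin L) {d : ℕ} (hd : 8 * d ≤ Fintype.card α)
    (hh : ∀ r c, intercalatesAt L r c + 1 + d = Fintype.card α) {r r' c c' : α}
    (h : L r c' = L r' c) : L r' c' = L r c ↔ rg L r r' := by
  have h1 := col_dich (tr_latin hL) hd (fun c r => by rw [tr_intercalates]; exact hh r c)
    (r := c) (r' := c') (c := r) (c' := r') (h.symm : tr L c r' = tr L c' r)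
  have h2 : (L r' c' = L r c) ↔ (tr L c' r' = tr L c r) := Iff.rfl
  rw [h2, h1]
  constructor
  · intro h3 a b hab
    exact (h3 a b hab).symm
  · intro h3 a b hab
    exact (h3 a b hab).symm

lemma sym_dich {L : α → α → α} (hL : IsLatin L) {d : ℕ} (hd : 8 * d ≤ Fintype.card α)
    (hh : ∀ r c, intercalatesAt L r c + 1 + d = Fintype.card α) {r r' c c' : α}
    (h : L r c' = L r' c) : L r' c' = L r c ↔ sg L (L r c) (L r c') := by
  -- the row with symbol `L r c` in column `c'`
  obtain ⟨r'', hr''⟩ := (hL.2 c').2 (L r c)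
  have hr2 : L r'' c' = L r c := hr''
  have h1 := col_dich (ps_latin hL) hd
    (fun r s => by
      have h2 := ps_intercalates hL r (ps hL r s)
      rw [ps_spec hL] at h2
      rw [h2]
      exact hh _ _) (r := r) (r' := r'') (c := L r c) (c' := L r c')
    (by rw [(ps_iff hL).2 (rfl : L r c' = L r c')]; symm; rw [ps_iff]; exact hr2)
  rw [(ps_iff hL).2 (rfl : L r c = L r c), ps_iff, h] at h1
  have h2 : L r' c' = L r c ↔ L r'' c = L r' c := by
    constructor
    · intro h3
      have : r'' = r' := (hL.2 c').1 (hr2.trans h3.symm)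
      rw [this]
    · intro h3
      have : r'' = r' := (hL.2 c).1 h3
      rw [← this, hr2]
  rw [h2, h1]
  constructor
  · intro h3 a b a' b' h4 h5 h6
    -- `a, a'` rows, `b, b'` columns
    have h7 := h3 a a' (by rw [(ps_iff hL).2 h4]; symm; rw [ps_iff, h6, h])
    rw [(ps_iff hL).2 (h5.trans h)] at h7
    exact (ps_iff hL).1 h7.symm
  · intro h3 a a' h4
    rw [eq_comm, ps_iff]
    have h5 : L a (ps hL a (L r c)) = L r c := ps_spec hL _ _
    have h6 : L a (ps hL a (L r' c)) = L r c' := (ps_spec hL _ _).trans h.symm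
    have h7 : L a' (ps hL a (L r c)) = L r c' := by
      rw [h4]
      exact (ps_spec hL _ _).trans h.symm
    exact h3 a _ a' _ h5 h6 h7

open Classical in
theorem equality_case {L : α → α → α} (hL : IsLatin L) {d : ℕ} (hd1 : 1 ≤ d)
    (hn : Fintype.card α = 8 * d) (hh : ∀ r c, intercalatesAt L r c + 1 + d = Fintype.card α) :
    ∃ i, 1 ≤ i ∧ d = 2 ^ i := by
  have hd : 8 * d ≤ Fintype.card α := hn.ge
  have hne : Nonempty α := by
    rw [← Fintype.card_pos_iff]; omega
  obtain ⟨c₀⟩ := hne
  have hbadeq : ∀ c r, (badc (col hL) c r).card = d := by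
    intro c r
    have h1 := intercalatesAt_eq hL r c
    have h2 := hh r c
    omega
  have hG : ∀ c, (GG (col hL) c)ᶜ.card = d := by
    intro c
    rw [GG_compl (sharp_col hL) hd (fun c r => (hbadeq c r).le) c c]
    exact hbadeq c c
  have memG : ∀ c e, e ∈ GG (col hL) c ↔ cg L c e := fun c e => by
    rw [mem_GG, Gd_iff_cg]
  have cgself : ∀ c, cg L c c := fun c r r' h => h
  -- comparison of the three relations
  have F1 : ∀ r c c', cg L c c' ↔ sg L (L r c) (L r c') := by
    intro r c c'
    obtain ⟨r', hr'⟩ := (hL.2 c).2 (L r c')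
    rw [← col_dich hL hd hh hr'.symm, sym_dich hL hd hh hr'.symm]
  have F2 : ∀ c r r', rg L r r' ↔ sg L (L r c) (L r' c) := by
    intro c r r'
    obtain ⟨c', hc'⟩ := (hL.1 r).2 (L r' c)
    rw [← row_dich hL hd hh hc', sym_dich hL hd hh hc', hc']
  -- neighbourhoods of good pairs
  have star : ∀ c b, cg L c b → (∃ z, ¬ cg L c z ∧ ¬ cg L b z) → ∀ z, (cg L c z ↔ cg L b z) := by
    intro c b hcb hz
    by_contra hcon
    obtain ⟨z, hz1, hz2⟩ := hz
    have hneq : (GG (col hL) b)ᶜ ≠ (GG (col hL) c)ᶜ := by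
      intro h
      apply hcon
      intro w
      rw [← memG, ← memG, ← not_iff_not, ← mem_compl, ← mem_compl, h]
    have hnsub : ¬ (GG (col hL) b)ᶜ ⊆ (GG (col hL) c)ᶜ := by
      intro h
      exact hneq (eq_of_subset_of_card_le h (by rw [hG, hG]))
    obtain ⟨a, ha, ha'⟩ := not_subset.1 hnsub
    rw [mem_compl, not_not] at ha'
    rw [mem_compl] at ha
    have hgood : Gd (col hL) a b := by
      refine clique_of (sharp_col hL) (d := d) (by omega) (fun c => (hG c).le) ha'
        ((memG c b).2 hcb) fun e f => ?_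
      set W : Finset α := GG (col hL) c ∩ GG (col hL) e ∩ (GG (col hL) f ∩ GG (col hL) b) with hW
      have g1 : Wᶜ ⊆ ((GG (col hL) c)ᶜ ∪ (GG (col hL) b)ᶜ) ∪
          ((GG (col hL) e)ᶜ ∪ (GG (col hL) f)ᶜ) := by
        intro y hy
        simp only [hW, mem_compl, mem_inter, mem_union] at hy ⊢
        tauto
      have g2 := card_le_card g1
      have g3 := card_union_le ((GG (col hL) c)ᶜ ∪ (GG (col hL) b)ᶜ)
        ((GG (col hL) e)ᶜ ∪ (GG (col hL) f)ᶜ)
      have g4 := card_union_add_card_inter (GG (col hL) c)ᶜ (GG (col hL) b)ᶜ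
      have g5 := card_union_le (GG (col hL) e)ᶜ (GG (col hL) f)ᶜ
      have g6 : 0 < ((GG (col hL) c)ᶜ ∩ (GG (col hL) b)ᶜ).card := by
        rw [card_pos]
        refine ⟨z, ?_⟩
        rw [mem_inter, mem_compl, mem_compl, memG, memG]
        exact ⟨hz1, hz2⟩
      have g7 := hG c
      have g8 := hG b
      have g9 := hG e
      have g10 := hG f
      have g11 := card_compl W
      have g12 : W.card ≤ Fintype.card α := card_le_univ W
      omega
    exact ha (mem_GG.2 hgood.symm)
  -- symbols
  have sgself : ∀ s, sg L s s := by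
    intro s
    obtain ⟨c, hc⟩ := (hL.1 c₀).2 s
    rw [← hc, ← F1]
    exact cgself c
  have sgsymm : ∀ s t, sg L s t → sg L t s := by
    intro s t
    obtain ⟨c, rfl⟩ := (hL.1 c₀).2 s
    obtain ⟨b, rfl⟩ := (hL.1 c₀).2 t
    rw [← F1, ← F1]
    exact cg_symm
  have sstar : ∀ s t, sg L s t → (∃ z, ¬ sg L s z ∧ ¬ sg L t z) → ∀ z, (sg L s z ↔ sg L t z) := by
    intro s t
    obtain ⟨c, rfl⟩ := (hL.1 c₀).2 s
    obtain ⟨b, rfl⟩ := (hL.1 c₀).2 t
    rw [← F1]
    rintro h1 ⟨z, hz1, hz2⟩ w
    obtain ⟨z, rfl⟩ := (hL.1 c₀).2 z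
    obtain ⟨w, rfl⟩ := (hL.1 c₀).2 w
    rw [← F1] at hz1 hz2
    rw [← F1, ← F1]
    exact star c b h1 ⟨z, hz1, hz2⟩ w
  -- the permutations
  set A : α → Equiv.Perm α := fun c => col hL c * (col hL c₀)⁻¹ with hA
  have hAapp : ∀ c r, A c (L r c₀) = L r c := by
    intro c r
    have h1 : (col hL c₀).symm (L r c₀) = r := (col hL c₀).symm_apply_apply r
    show col hL c ((col hL c₀).symm (L r c₀)) = L r c
    rw [h1]
    rfl
  have hA2 : ∀ c, cg L c₀ c → A c * A c = 1 := by
    intro c hc
    have h1 := (Gd_iff (col hL) c₀ c).1 ((Gd_iff_cg hL _ _).2 hc)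
    simp only [hA]
    calc col hL c * (col hL c₀)⁻¹ * (col hL c * (col hL c₀)⁻¹)
        = (col hL c * (col hL c₀)⁻¹ * col hL c) * (col hL c₀)⁻¹ := by group
      _ = 1 := by rw [h1]; group
  have hAcomm : ∀ x y, cg L c₀ x → cg L c₀ y → cg L x y → A x * A y = A y * A x := by
    intro x y hx hy hxy
    have h1 := (Gd_iff (col hL) x y).1 ((Gd_iff_cg hL _ _).2 hxy)
    have hinv : (A x)⁻¹ = A x := by rw [inv_eq_iff_mul_eq_one]; exact hA2 x hx
    have e1 : col hL y * (col hL x)⁻¹ * col hL y = A y * (A x)⁻¹ * A y * col hL c₀ := by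
      simp only [hA]; group
    have e2 : col hL x = A x * col hL c₀ := by simp only [hA]; group
    rw [e1, e2, mul_left_inj, hinv] at h1
    calc A x * A y = A y * A x * A y * A y := by rw [h1]
      _ = A y * A x * (A y * A y) := by group
      _ = A y * A x := by rw [hA2 y hy, mul_one]
  have hAsg : ∀ c x y, sg L x y ↔ sg L (A c x) (A c y) := by
    intro c x y
    obtain ⟨r, rfl⟩ := (hL.2 c₀).2 x
    obtain ⟨r', rfl⟩ := (hL.2 c₀).2 y
    show sg L (L r c₀) (L r' c₀) ↔ sg L (A c (L r c₀)) (A c (L r' c₀))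
    rw [hAapp, hAapp, ← F2, ← F2]
  -- the same neighbourhood
  have hAnb : ∀ c x y, (∀ z, sg L x z ↔ sg L y z) ↔ (∀ z, sg L (A c x) z ↔ sg L (A c y) z) := by
    intro c x y
    constructor
    · intro h z
      obtain ⟨z, rfl⟩ := (A c).surjective z
      rw [← hAsg, ← hAsg]
      exact h z
    · intro h z
      rw [hAsg c x z, hAsg c y z]
      exact h _
  -- the equivalence relation
  let S : Setoid α :=
    { r := fun s t => ¬ sg L s t ∨ ∀ z, (sg L s z ↔ sg L t z)
      iseqv := by
        constructor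
        · intro s
          exact Or.inr fun z => Iff.rfl
        · rintro s t (h | h)
          · exact Or.inl fun h' => h (sgsymm _ _ h')
          · exact Or.inr fun z => (h z).symm
        · rintro s t u (h | h) (h' | h')
          · by_cases hsu : sg L s u
            · right
              exact sstar s u hsu ⟨t, h, fun h'' => h' (sgsymm _ _ h'')⟩
            · exact Or.inl hsu
          · left
            intro hsu
            exact h (sgsymm _ _ ((h' s).2 (sgsymm _ _ hsu)))
          · left
            intro hsu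
            exact h' ((h u).1 hsu)
          · exact Or.inr fun z => (h z).trans (h' z) }
  have hS : ∀ s t, S s t ↔ (¬ sg L s t ∨ ∀ z, (sg L s z ↔ sg L t z)) := fun s t => Iff.rfl
  have hAS : ∀ c x y, S x y ↔ S (A c x) (A c y) := by
    intro c x y
    rw [hS, hS, hAsg c x y, hAnb c x y]
  let Abar : α → Equiv.Perm (Quotient S) := fun c => Quotient.congr (A c) (fun x y => hAS c x y)
  have hAbar : ∀ c x, Abar c (Quotient.mk S x) = Quotient.mk S (A c x) := fun c x => rfl
  have hAbar1 : ∀ c, ¬ cg L c₀ c → Abar c = 1 := by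
    intro c hc
    ext q
    induction q using Quotient.inductionOn with
    | h x =>
      rw [hAbar]
      apply Quotient.sound
      obtain ⟨r, rfl⟩ := (hL.2 c₀).2 x
      show S (A c (L r c₀)) (L r c₀)
      rw [hAapp, hS]
      left
      intro h
      exact hc ((F1 r c₀ c).2 (sgsymm _ _ h))
  have hAbar2 : ∀ c, Abar c * Abar c = 1 := by
    intro c
    by_cases hc : cg L c₀ c
    · ext q
      induction q using Quotient.inductionOn with
      | h x =>
        rw [Equiv.Perm.mul_apply, hAbar, hAbar]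
        have := congrArg (fun g : Equiv.Perm α => g x) (hA2 c hc)
        have h3 : A c (A c x) = x := this
        rw [h3]
        rfl
    · rw [hAbar1 c hc, mul_one]
  have hAbarcomm : ∀ c c', Abar c * Abar c' = Abar c' * Abar c := by
    intro c c'
    by_cases hc : cg L c₀ c
    · by_cases hc' : cg L c₀ c'
      · by_cases hcc : cg L c c'
        · ext q
          induction q using Quotient.inductionOn with
          | h x =>
            rw [Equiv.Perm.mul_apply, Equiv.Perm.mul_apply, hAbar, hAbar, hAbar, hAbar]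
            have := congrArg (fun g : Equiv.Perm α => g x) (hAcomm c c' hc hc' hcc)
            have h3 : A c (A c' x) = A c' (A c x) := this
            rw [h3]
        · have : Abar c = Abar c' := by
            ext q
            induction q using Quotient.inductionOn with
            | h x =>
              rw [hAbar, hAbar]
              apply Quotient.sound
              obtain ⟨r, rfl⟩ := (hL.2 c₀).2 x
              show S (A c (L r c₀)) (A c' (L r c₀))
              rw [hAapp, hAapp, hS]
              left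
              intro h
              exact hcc ((F1 r c c').2 h)
          rw [this]
      · rw [hAbar1 c' hc', mul_one, one_mul]
    · rw [hAbar1 c hc, mul_one, one_mul]
  have hAtrans : ∀ x y, ∃ c, A c x = y := by
    intro x y
    obtain ⟨r, rfl⟩ := (hL.2 c₀).2 x
    obtain ⟨c, rfl⟩ := (hL.1 r).2 y
    exact ⟨c, hAapp c r⟩
  have hAbartrans : ∀ x y, ∃ c, Abar c x = y := by
    intro x y
    induction x using Quotient.inductionOn with
    | h x =>
      induction y using Quotient.inductionOn with
      | h y =>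
        obtain ⟨c, hc⟩ := hAtrans x y
        exact ⟨c, by rw [hAbar, hc]⟩
  have : Nonempty (Quotient S) := ⟨Quotient.mk S c₀⟩
  obtain ⟨j, hj⟩ := pow_two_of_transitive Abar hAbar2 hAbarcomm hAbartrans
  -- sizes of the classes
  let cl : α → Finset α := fun x => univ.filter fun t => S x t
  have hcl : ∀ x, (cl x).card = (cl c₀).card := by
    intro x
    obtain ⟨c, hc⟩ := hAtrans c₀ x
    symm
    refine card_bij (fun t _ => A c t) ?_ ?_ ?_
    · intro t ht
      simp only [cl, mem_filter, mem_univ, true_and] at ht ⊢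
      rw [← hc]
      exact (hAS c c₀ t).1 ht
    · intro t _ t' _ h
      exact (A c).injective h
    · intro t ht
      simp only [cl, mem_filter, mem_univ, true_and] at ht
      obtain ⟨t, rfl⟩ := (A c).surjective t
      refine ⟨t, ?_, rfl⟩
      simp only [cl, mem_filter, mem_univ, true_and]
      rw [← hc] at ht
      exact (hAS c c₀ t).2 ht
  have htotal : Fintype.card α = 2 ^ j * (cl c₀).card := by
    rw [← card_univ, card_eq_sum_card_fiberwise (f := fun x => Quotient.mk S x)
      (t := (univ : Finset (Quotient S))) (fun _ _ => mem_univ _)]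
    have h1 : ∀ q ∈ (univ : Finset (Quotient S)),
        (univ.filter fun x => Quotient.mk S x = q).card = (cl c₀).card := by
      intro q _
      induction q using Quotient.inductionOn with
      | h x =>
        rw [← hcl x]
        congr 1
        ext t
        simp only [cl, mem_filter, mem_univ, true_and]
        rw [eq_comm]
        exact Quotient.eq (r := S)
    rw [sum_congr rfl h1, sum_const, smul_eq_mul, card_univ, ← Nat.card_eq_fintype_card, hj]
  let sn : Finset α := univ.filter fun t => ∀ z, (sg L c₀ z ↔ sg L t z)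
  let nbS : α → Finset α := fun s => univ.filter fun t => ¬ sg L s t
  have hnbS : ∀ s, (nbS s).card = d := by
    intro s
    obtain ⟨c, rfl⟩ := (hL.1 c₀).2 s
    rw [← hG c]
    symm
    refine card_bij (fun t _ => L c₀ t) ?_ ?_ ?_
    · intro t ht
      rw [mem_compl, memG] at ht
      simp only [nbS, mem_filter, mem_univ, true_and]
      rwa [← F1]
    · intro t _ t' _ h
      exact (hL.1 c₀).1 h
    · intro t ht
      simp only [nbS, mem_filter, mem_univ, true_and] at ht
      obtain ⟨t, rfl⟩ := (hL.1 c₀).2 t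
      refine ⟨t, ?_, rfl⟩
      rw [mem_compl, memG, F1 c₀]
      exact ht
  have hclsplit : (cl c₀).card = d + sn.card := by
    rw [← hnbS c₀, ← card_union_of_disjoint]
    · congr 1
      ext t
      simp only [cl, nbS, sn, mem_filter, mem_univ, true_and, mem_union]
      exact hS c₀ t
    · rw [disjoint_left]
      intro t ht ht'
      simp only [nbS, sn, mem_filter, mem_univ, true_and] at ht ht'
      exact ht ((ht' t).2 (sgself t))
  have hsnpos : 1 ≤ sn.card := by
    rw [Nat.one_le_iff_ne_zero, ← Nat.pos_iff_ne_zero, card_pos]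
    exact ⟨c₀, by simp [sn]⟩
  have hsnle : sn.card ≤ d := by
    have h1 : (nbS c₀).Nonempty := by
      rw [← card_pos, hnbS]; omega
    obtain ⟨v, hv⟩ := h1
    simp only [nbS, mem_filter, mem_univ, true_and] at hv
    rw [← hnbS v]
    apply card_le_card
    intro t ht
    simp only [sn, nbS, mem_filter, mem_univ, true_and] at ht ⊢
    intro h
    exact hv ((ht v).2 (sgsymm _ _ h))
  have hjj : j = 2 := by
    rw [hn, hclsplit] at htotal
    have h1 : j < 3 := by
      by_contra h
      have h2 : 2 ^ 3 ≤ 2 ^ j := Nat.pow_le_pow_right (by norm_num) (by omega)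
      nlinarith
    interval_cases j
    · omega
    · omega
    · rfl
  have hsn : sn.card = d := by
    rw [hn, hclsplit, hjj] at htotal
    omega
  -- the class of equal neighbourhoods has a power of two elements
  have hXcard : Nat.card {t // ∀ z, (sg L c₀ z ↔ sg L t z)} = d := by
    rw [Nat.card_eq_fintype_card, Fintype.card_subtype, ← hsn]
  have : Nonempty {t // ∀ z, (sg L c₀ z ↔ sg L t z)} := ⟨⟨c₀, fun z => Iff.rfl⟩⟩
  have hpres : ∀ c : {c // ∀ z, (cg L c₀ z ↔ cg L c z)}, ∀ t, (∀ z, (sg L c₀ z ↔ sg L (A c t) z)) ↔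
      (∀ z, (sg L c₀ z ↔ sg L t z)) := by
    rintro ⟨c, hc⟩ t
    obtain ⟨r, rfl⟩ := (hL.2 c₀).2 t
    have h1 : ∀ z, (sg L (L r c₀) z ↔ sg L (L r c) z) := by
      intro z
      obtain ⟨z, rfl⟩ := (hL.1 r).2 z
      rw [← F1, ← F1]
      exact hc z
    show (∀ z, (sg L c₀ z ↔ sg L (A c (L r c₀)) z)) ↔ (∀ z, (sg L c₀ z ↔ sg L (L r c₀) z))
    rw [hAapp]
    constructor
    · intro h z
      rw [h z, h1 z]
    · intro h z
      rw [h z, h1 z]
  let B : {c // ∀ z, (cg L c₀ z ↔ cg L c z)} → Equiv.Perm {t // ∀ z, (sg L c₀ z ↔ sg L t z)} :=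
    fun c => (A c).subtypePerm (hpres c)
  obtain ⟨i, hi⟩ := pow_two_of_transitive B (by
      rintro ⟨c, hc⟩
      ext t
      have h1 : cg L c₀ c := (hc c).2 (cgself c)
      have := congrArg (fun g : Equiv.Perm α => g t) (hA2 c h1)
      exact this) (by
      rintro ⟨c, hc⟩ ⟨c', hc'⟩
      ext t
      have h1 : cg L c₀ c := (hc c).2 (cgself c)
      have h2 : cg L c₀ c' := (hc' c').2 (cgself c')
      have h3 : cg L c c' := (hc c').1 h2
      have := congrArg (fun g : Equiv.Perm α => g t) (hAcomm c c' h1 h2 h3)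
      exact this) (by
      rintro ⟨x, hx⟩ ⟨y, hy⟩
      obtain ⟨r, rfl⟩ := (hL.2 c₀).2 x
      obtain ⟨c, rfl⟩ := (hL.1 r).2 y
      refine ⟨⟨c, fun z => ?_⟩, ?_⟩
      · rw [F1 r, F1 r, ← hx (L r z), hy (L r z)]
      · apply Subtype.ext
        exact hAapp c r)
  refine ⟨i, ?_, by rw [← hi, hXcard]⟩
  -- the case `d = 1` is impossible
  by_contra hi0
  have hi0' : i = 0 := by omega
  have hd_one : d = 1 := by rw [← hXcard, hi, hi0']; norm_num
  have huniq : ∀ s t t', ¬ sg L s t → ¬ sg L s t' → t = t' := by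
    intro s t t' h1 h2
    have h3 := hnbS s
    rw [hd_one] at h3
    have h4 := card_le_one.1 h3.le t (by simpa [nbS] using h1) t' (by simpa [nbS] using h2)
    exact h4
  obtain ⟨c₁, hc₁⟩ : ∃ c₁, ¬ cg L c₀ c₁ := by
    have h1 : ((GG (col hL) c₀)ᶜ).Nonempty := by
      rw [← card_pos, hG]; omega
    obtain ⟨v, hv⟩ := h1
    exact ⟨v, by rwa [mem_compl, memG] at hv⟩
  obtain ⟨r', hr'⟩ := (hL.2 c₀).2 (L c₀ c₁)
  have hr2 : L c₀ c₁ = L r' c₀ := hr'.symm
  have h1 := col_dich hL hd hh hr2
  apply hc₁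
  rw [← h1]
  apply huniq (L r' c₀)
  · rw [← F1]; exact hc₁
  · rw [← hr2]
    intro h2
    apply hc₁
    rw [F1 c₀]
    exact sgsymm _ _ h2

end Pool.Agent.H51.Homog
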