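import Mathlib
import Pool.Agent.H51.Homog.Bound

open Finset

namespace Pool.Agent.H51.Homog

abbrev Z2 := ZMod 2

/-- the trilinear cocycle -/
def tau (x y : Z2 × Z2 × Z2) : Z2 :=
  x.1 * x.2.1 * y.2.2 + x.2.1 * x.2.2 * y.1 + x.1 * x.2.2 * y.2.1

lemma tau_identity : ∀ R C δ : Z2 × Z2 × Z2,
    tau R (C + δ) + tau (R + δ) C + tau (R + δ) (C + δ) + tau R C = δ.1 * δ.2.1 * δ.2.2 := by
  decide

abbrev TT (i : ℕ) : Type := (Z2 × Z2 × Z2) × (Z2 × (Fin i → Z2))

/-- the latin square of order `16 * 2 ^ i` -/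
def LT (i : ℕ) (x y : TT i) : TT i := x + y + (0, (tau x.1 y.1, 0))

lemma two_eq_zero_Z2 (x : Z2) : x + x = 0 := CharTwo.add_self_eq_zero x

lemma TT_add_self {i : ℕ} (x : TT i) : x + x = 0 := by
  obtain ⟨⟨a, b, c⟩, d, e⟩ := x
  simp only [Prod.mk_add_mk, two_eq_zero_Z2, Prod.mk_eq_zero, true_and]
  ext j
  exact two_eq_zero_Z2 _

lemma LT_latin (i : ℕ) : IsLatin (LT i) := by
  constructor
  · intro r
    rw [← Finite.injective_iff_bijective]
    intro y y' h
    have h1 : y.1 = y'.1 := by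
      have := congrArg Prod.fst h
      simpa [LT] using this
    simp only [LT, h1] at h
    simpa using h
  · intro c
    rw [← Finite.injective_iff_bijective]
    intro y y' h
    have h1 : y.1 = y'.1 := by
      have := congrArg Prod.fst h
      simpa [LT] using this
    simp only [LT, h1] at h
    simpa using h

lemma LT_gd (i : ℕ) (c e r : TT i) :
    gd (col (LT_latin i)) c e r ↔ (c + e).1.1 * (c + e).1.2.1 * (c + e).1.2.2 = 0 := by
  set r' := (col (LT_latin i) c).symm (col (LT_latin i) e r) with hr'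
  have h1 : LT i r' c = LT i r e := (col (LT_latin i) c).apply_symm_apply _
  have h2 : r' = r + (c + e) + (0, (tau r.1 e.1 + tau r'.1 c.1, 0)) := by
    simp only [LT] at h1
    have h3 : r' = (r' + c + (0, (tau r'.1 c.1, 0))) + c + (0, (tau r'.1 c.1, 0)) := by
      have e1 := TT_add_self c
      have e2 := TT_add_self ((0, (tau r'.1 c.1, 0)) : TT i)
      calc r' = r' + (c + c) + ((0, (tau r'.1 c.1, 0)) + (0, (tau r'.1 c.1, 0)) : TT i) := by
            rw [e1, e2]; simp
        _ = _ := by abel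
    rw [h1] at h3
    calc r' = _ := h3
      _ = r + (c + e) + ((0, (tau r.1 e.1, 0)) + (0, (tau r'.1 c.1, 0)) : TT i) := by abel
      _ = _ := by simp
  have h3 : r'.1 = r.1 + (c + e).1 := by rw [h2]; simp
  have h4 : gd (col (LT_latin i)) c e r ↔ LT i r' e = LT i r c := Iff.rfl
  rw [h4]
  have h5 : LT i r' e = LT i r c + (0, (tau r.1 e.1 + tau r'.1 c.1 + tau r'.1 e.1 + tau r.1 c.1, 0)) := by
    have e1 := TT_add_self e
    have e2 := TT_add_self ((0, (tau r.1 c.1, 0)) : TT i)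
    simp only [LT]
    calc r' + e + (0, (tau r'.1 e.1, 0))
        = (r + (c + e) + (0, (tau r.1 e.1 + tau r'.1 c.1, 0))) + e + (0, (tau r'.1 e.1, 0)) := by
          rw [← h2]
      _ = r + c + (e + e) + ((0, (tau r.1 e.1 + tau r'.1 c.1, 0)) + (0, (tau r'.1 e.1, 0)) : TT i)
          := by abel
      _ = r + c + ((0, (tau r.1 e.1 + tau r'.1 c.1, 0)) + (0, (tau r'.1 e.1, 0)) : TT i)
          + ((0, (tau r.1 c.1, 0)) + (0, (tau r.1 c.1, 0)) : TT i) := by
          rw [e1, e2]; simp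
      _ = r + c + (0, (tau r.1 c.1, 0)) +
          (0, (tau r.1 e.1 + tau r'.1 c.1 + tau r'.1 e.1 + tau r.1 c.1, 0)) := by
          ext <;> simp <;> ring
  have h6 : e.1 = c.1 + (c + e).1 := by
    have := TT_add_self c
    have h7 : c + (c + e) = e := by
      calc c + (c + e) = (c + c) + e := by abel
        _ = e := by rw [this]; simp
    rw [← Prod.fst_add, h7]
  have h7 := tau_identity r.1 c.1 (c + e).1
  rw [← h6, ← h3] at h7
  rw [h5, h7]
  constructor
  · intro h
    have := congrArg (fun z : TT i => z.2.1) h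
    simpa using this
  · intro h
    rw [h]
    simp

open Classical in
lemma LT_badc (i : ℕ) (c r : TT i) : (badc (col (LT_latin i)) c r).card = 2 * 2 ^ i := by
  have h1 : badc (col (LT_latin i)) c r =
      (univ : Finset (Z2 × (Fin i → Z2))).map
        ⟨fun w => (((c.1.1 + 1, c.1.2.1 + 1, c.1.2.2 + 1), w) : TT i), fun w w' h => by
          simpa using h⟩ := by
    ext e
    simp only [badc, mem_filter, mem_univ, true_and, mem_map, Function.Embedding.coeFn_mk]
    rw [LT_gd]
    obtain ⟨⟨e1, e2, e3⟩, e4⟩ := e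
    obtain ⟨⟨c1, c2, c3⟩, c4⟩ := c
    have key : ∀ c1 c2 c3 e1 e2 e3 : Z2, ¬ (c1 + e1) * (c2 + e2) * (c3 + e3) = 0 ↔
        (c1 + 1 = e1 ∧ c2 + 1 = e2 ∧ c3 + 1 = e3) := by decide
    have h2 := key c1 c2 c3 e1 e2 e3
    simp only [Prod.mk_add_mk, Prod.mk.injEq]
    rw [h2]
    constructor
    · rintro ⟨a, b, c⟩
      exact ⟨e4, ⟨a, b, c⟩, rfl⟩
    · rintro ⟨_, h, _⟩
      exact h
  rw [h1, card_map, card_univ, Fintype.card_prod, Fintype.card_fun, ZMod.card, Fintype.card_fin]

lemma LT_intercalates (i : ℕ) (r c : TT i) :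
    intercalatesAt (LT i) r c + (2 * 2 ^ i + 1) = 16 * 2 ^ i := by
  have h1 := intercalatesAt_eq (LT_latin i) r c
  rw [LT_badc] at h1
  have h2 : Fintype.card (TT i) = 16 * 2 ^ i := by
    simp only [Fintype.card_prod, Fintype.card_fun, ZMod.card, Fintype.card_fin]
    ring
  rw [h2] at h1
  omega

/-! ### relabelling -/

lemma relabel_latin {α β : Type} (e : α ≃ β) {L : α → α → α} (hL : IsLatin L) :
    IsLatin (fun x y => e (L (e.symm x) (e.symm y))) :=
  ⟨fun r => e.bijective.comp ((hL.1 _).comp e.symm.bijective),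
    fun c => e.bijective.comp ((hL.2 (e.symm c)).comp e.symm.bijective)⟩

lemma relabel_intercalates {α β : Type} (e : α ≃ β) (L : α → α → α) (r c : β) :
    intercalatesAt (fun x y => e (L (e.symm x) (e.symm y))) r c =
      intercalatesAt L (e.symm r) (e.symm c) := by
  unfold intercalatesAt
  refine Set.ncard_congr (fun p _ => (e.symm p.1, e.symm p.2)) ?_ ?_ ?_
  · rintro ⟨r', c'⟩ ⟨h1, h2, h3, h4⟩
    exact ⟨fun h => h1 (e.symm.injective h), fun h => h2 (e.symm.injective h), e.injective h3,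
      e.injective h4⟩
  · rintro ⟨r', c'⟩ ⟨r'', c''⟩ _ _ h
    simp only [Prod.mk.injEq, EmbeddingLike.apply_eq_iff_eq] at h
    rw [h.1, h.2]
  · rintro ⟨r', c'⟩ ⟨h1, h2, h3, h4⟩
    refine ⟨(e r', e c'), ⟨?_, ?_, ?_, ?_⟩, by simp⟩
    · intro h
      apply h1
      simp only at h ⊢
      rw [← h]; simp
    · intro h
      apply h2
      simp only at h ⊢
      rw [← h]; simp
    · show e _ = e _
      simp only [Equiv.symm_apply_apply]
      rw [h3]
    · show e _ = e _
      simp only [Equiv.symm_apply_apply]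
      rw [h4]

theorem exists_example (i : ℕ) : ∃ L : Fin (16 * 2 ^ i) → Fin (16 * 2 ^ i) → Fin (16 * 2 ^ i),
    IsLatin L ∧ ∀ r c, intercalatesAt L r c + (2 * 2 ^ i + 1) = 16 * 2 ^ i := by
  have h2 : Fintype.card (TT i) = 16 * 2 ^ i := by
    simp only [Fintype.card_prod, Fintype.card_fun, ZMod.card, Fintype.card_fin]
    ring
  let e : TT i ≃ Fin (16 * 2 ^ i) := Fintype.equivFinOfCardEq h2
  refine ⟨_, relabel_latin e (LT_latin i), fun r c => ?_⟩
  rw [relabel_intercalates]
  exact LT_intercalates i _ _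

end Pool.Agent.H51.Homog
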